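import Pool.Agent.H295R3.D6.Stmts

/-! Task K3 of project H295-D6. By helper525. -/

set_option autoImplicit false

open Finset Filter

namespace Pool.Agent.H525R3.D6

open Pool.Agent.H295R3.D6

theorem taskK3 : TaskK3 := by
  intro hC2 δ₂ κ η hδ₀ hδ₁ hκ hη₀ hη₁
  have hev : ∀ᶠ N : ℕ in atTop, (4 : ℝ) ^ (1 / κ) ≤ (N : ℝ) ^ (1 / 25 : ℝ) := by
    have h := (tendsto_rpow_atTop (show (0 : ℝ) < 1 / 25 by norm_num)).comp
      tendsto_natCast_atTop_atTop
    exact h.eventually_ge_atTop _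
  filter_upwards [hev, eventually_ge_atTop 1] with N hN hN1
  intro y m k p j b₂ b₃ b₄ B hctx h1 h2 h3 h4
  have hrel := hctx.rel
  obtain ⟨hB4, h43, h32, h2m, -⟩ := id hrel
  have hp := hctx.pp
  have hNpos : (0 : ℝ) < N := by exact_mod_cast hN1
  have hN1' : (1 : ℝ) ≤ N := by exact_mod_cast hN1
  have hL : (2 : ℝ) ≤ ((b₃ - b₄ : ℕ) : ℝ) := by exact_mod_cast h2
  have hLκ : ((b₃ - b₄ : ℕ) : ℝ) ≤ 1 / κ := by
    rw [le_div_iff₀ hκ]; linarith
  have hA : 2 ≤ 1 / κ := hL.trans hLκ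
  have hj1 := hctx.hj1
  have hj2 := hctx.hj2
  have hjp1 : 1 ≤ j * p := Nat.mul_pos hctx.j1 hp.pos
  have hjpN : j * p ≤ N := by
    have : j * p ≤ k * p := Nat.mul_le_mul_right p hctx.jk.le
    have h5 := hctx.hmN
    rw [hctx.hm] at h5
    exact this.trans h5
  -- a neighbour of `j p` in block 2
  obtain ⟨n, hn, hn1⟩ : ∃ n, n ∈ Ioc b₄ b₃ ∧ (n = j * p + 1 ∨ n + 1 = j * p) := by
    by_cases hc : j * p + 1 ≤ b₃
    · exact ⟨j * p + 1, mem_Ioc.mpr ⟨by omega, hc⟩, Or.inl rfl⟩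
    · exact ⟨j * p - 1, mem_Ioc.mpr ⟨by omega, by omega⟩, Or.inr (by omega)⟩
  have hnIoc := mem_Ioc.mp hn
  have hn0 : 1 ≤ n := by omega
  obtain ⟨s, t, hst, hsq⟩ := Nat.sq_mul_squarefree n
  -- hst : t ^ 2 * s = n
  have hs0 : s ≠ 0 := by
    rintro rfl
    rw [mul_zero] at hst
    omega
  have ht0 : t ≠ 0 := by
    rintro rfl
    simp at hst
    omega
  set W := max B (b₃ - b₄) with hW
  -- large primes of `s` divide `k`
  have hlarge : ∀ q ∈ s.primeFactors, W < q → q ∣ k := by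
    intro q hq hqW
    have hqp : q.Prime := Nat.prime_of_mem_primeFactors hq
    have hqs : q ∣ s := Nat.dvd_of_mem_primeFactors hq
    have hfac : n.factorization q = 2 * t.factorization q + s.factorization q := by
      rw [← hst, Nat.factorization_mul (pow_ne_zero 2 ht0) hs0, Nat.factorization_pow]
      simp
    have hs1 : s.factorization q = 1 := by
      have h5 : s.factorization q ≤ 1 := hsq.natFactorization_le_one q
      have h6 : 1 ≤ s.factorization q := (hqp.dvd_iff_one_le_factorization hs0).mp hqs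
      omega
    have hodd : Odd (n.factorization q) := ⟨t.factorization q, by rw [hfac, hs1]⟩
    have hBq : B < q := lt_of_le_of_lt (le_max_left _ _) hqW
    have hLq : max (m - b₂) (b₃ - b₄) < q := by
      have : b₃ - b₄ < q := lt_of_le_of_lt (le_max_right _ _) hqW
      rw [h1]
      exact max_lt (by omega) this
    have hdvd := hC2 m b₂ b₃ b₄ B hrel n hn q hqp hBq hLq hodd
    have hblk : blk b₂ m = m := by
      unfold blk
      have : Ioc b₂ m = {m} := by
        ext x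
        rw [mem_Ioc, mem_singleton]
        omega
      rw [this, prod_singleton]
    rw [hblk, hctx.hm] at hdvd
    rcases (hqp.dvd_mul).mp hdvd with h | h
    · exact h
    · exfalso
      have hqp' : q = p := (Nat.prime_dvd_prime_iff_eq hqp hp).mp h
      have hqn : q ∣ n := hqs.trans ⟨t ^ 2, by rw [← hst]; ring⟩
      have hqj : q ∣ j * p := by rw [hqp']; exact dvd_mul_left p j
      have hq1 : q ∣ 1 := by
        rcases hn1 with h5 | h5
        · rw [h5] at hqn
          exact (Nat.dvd_add_right hqj).mp hqn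
        · rw [← h5] at hqj
          exact (Nat.dvd_add_right hqn).mp hqj
      exact hqp.one_lt.ne' (Nat.dvd_one.mp hq1)
  have hs_le : s ≤ 4 ^ W * k := by
    have hk0 : 0 < k := by have := hctx.k2; omega
    have e1 : s = (∏ q ∈ s.primeFactors.filter (fun q => q ≤ W), q)
        * ∏ q ∈ s.primeFactors.filter (fun q => ¬ q ≤ W), q := by
      rw [prod_filter_mul_prod_filter_not]
      exact (Nat.prod_primeFactors_of_squarefree hsq).symm
    have e2 : ∏ q ∈ s.primeFactors.filter (fun q => q ≤ W), q ≤ 4 ^ W := by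
      refine le_trans ?_ (primorial_le_four_pow W)
      unfold primorial
      apply prod_le_prod_of_subset_of_one_le'
      · intro q hq
        rw [mem_filter] at hq ⊢
        exact ⟨mem_range.mpr (Nat.lt_succ_of_le hq.2), Nat.prime_of_mem_primeFactors hq.1⟩
      · intro q hq _
        exact (mem_filter.mp hq).2.one_le
    have e3 : ∏ q ∈ s.primeFactors.filter (fun q => ¬ q ≤ W), q ≤ k := by
      apply Nat.le_of_dvd hk0
      apply Finset.prod_primes_dvd
      · intro q hq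
        exact (Nat.prime_of_mem_primeFactors (mem_filter.mp hq).1).prime
      · intro q hq
        exact hlarge q (mem_filter.mp hq).1 (not_le.mp (mem_filter.mp hq).2)
    calc s = _ := e1
      _ ≤ 4 ^ W * k := Nat.mul_le_mul e2 e3
  have hWr : (W : ℝ) ≤ Real.log N / 30 + 1 / κ := by
    rw [hW, Nat.cast_max]
    have hlog : 0 ≤ Real.log N := Real.log_nonneg hN1'
    apply max_le
    · have : 0 ≤ 1 / κ := by positivity
      linarith
    · linarith [hLκ, div_nonneg hlog (by norm_num : (0 : ℝ) ≤ 30)]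
  have hfour : ((4 : ℝ) ^ W) ≤ (N : ℝ) ^ (1 / 20 : ℝ) * (N : ℝ) ^ (1 / 25 : ℝ) := by
    have e1 : (4 : ℝ) ^ W ≤ (4 : ℝ) ^ (Real.log N / 30 + 1 / κ) := by
      rw [← Real.rpow_natCast]
      exact Real.rpow_le_rpow_of_exponent_le (by norm_num) hWr
    have e2 : (4 : ℝ) ^ (Real.log N / 30 + 1 / κ)
        = (4 : ℝ) ^ (Real.log N / 30) * (4 : ℝ) ^ (1 / κ) := Real.rpow_add (by norm_num) _ _
    have e3 : (4 : ℝ) ^ (Real.log N / 30) ≤ (N : ℝ) ^ (1 / 20 : ℝ) := by
      rw [Real.rpow_def_of_pos (by norm_num : (0 : ℝ) < 4), Real.rpow_def_of_pos hNpos]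
      apply Real.exp_le_exp.mpr
      have hlog4 : Real.log 4 ≤ 3 / 2 := by
        have : Real.log 4 = 2 * Real.log 2 := by
          rw [show (4 : ℝ) = 2 ^ 2 by norm_num, Real.log_pow]
          norm_num
        have h5 := Real.log_two_lt_d9
        linarith
      have hlog : 0 ≤ Real.log N := Real.log_nonneg hN1'
      nlinarith
    calc (4 : ℝ) ^ W ≤ (4 : ℝ) ^ (Real.log N / 30) * (4 : ℝ) ^ (1 / κ) := e1.trans e2.le
      _ ≤ (N : ℝ) ^ (1 / 20 : ℝ) * (N : ℝ) ^ (1 / 25 : ℝ) := by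
        apply mul_le_mul e3 hN (by positivity) (by positivity)
  have hsr : (s : ℝ) ≤ (N : ℝ) ^ (1 / 10 : ℝ) := by
    have e1 : (s : ℝ) ≤ (4 : ℝ) ^ W * k := by exact_mod_cast hs_le
    have e2 : (k : ℝ) ≤ (N : ℝ) ^ (1 / 1000 : ℝ) := by
      refine hctx.kN.trans (Real.rpow_le_rpow_of_exponent_le hN1' ?_)
      linarith
    calc (s : ℝ) ≤ (4 : ℝ) ^ W * k := e1
      _ ≤ ((N : ℝ) ^ (1 / 20 : ℝ) * (N : ℝ) ^ (1 / 25 : ℝ)) * (N : ℝ) ^ (1 / 1000 : ℝ) := by
        apply mul_le_mul hfour e2 (by positivity) (by positivity)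
      _ = (N : ℝ) ^ (1 / 20 + 1 / 25 + 1 / 1000 : ℝ) := by
        rw [Real.rpow_add hNpos, Real.rpow_add hNpos]
      _ ≤ (N : ℝ) ^ (1 / 10 : ℝ) := by
        apply Real.rpow_le_rpow_of_exponent_le hN1'
        norm_num
  refine ⟨hjp1, hjpN, n, s, t, hn0, ?_, ?_, ?_, hsr⟩
  · have : j * p ≤ n + 1 := by omega
    have h5 : ((j * p : ℕ) : ℝ) ≤ (n : ℝ) + 1 := by exact_mod_cast this
    linarith
  · have : n ≤ j * p + 1 := by omega
    have h5 : (n : ℝ) ≤ ((j * p : ℕ) : ℝ) + 1 := by exact_mod_cast this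
    linarith
  · rw [← hst]; ring

end Pool.Agent.H525R3.D6
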